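import Pool.Agent.H707F.LF.Wrap

/-!
Negative answer to the question on lifting independent unitaries.
-/

set_option autoImplicit false

namespace Pool.Agent.Results.MP_81d1ca_an.NoLift

open Pool.Agent.Helper278 Pool.Agent.H707F.LF

theorem result : ∃ (K : Type) (_ : NormedAddCommGroup K) (_ : InnerProductSpace ℂ K)
    (_ : CompleteSpace K) (N : VonNeumannAlgebra K) (τ : Elt N → ℂ),
    IsTrace N τ ∧ Fails N τ ∧ ¬ Lifts N τ :=
  fails

end Pool.Agent.Results.MP_81d1ca_an.NoLift
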